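import Pool.Agent.Lib.MP_688fd0_co.TE.H69.SumL

/-!
# Theorem E: LOWC
-/

namespace Pool.Agent.Lib.MP_688fd0_co.TE.H69

universe u v

theorem ind_lt_le {c t : ℝ} (hc : 0 < c) (ht : 0 ≤ t) : ind (c < t) ≤ t / c := by
  by_cases h : c < t
  · rw [ind_of h, le_div_iff₀ hc]; linarith
  · rw [ind_not h]; positivity

/-- LOWC. -/
theorem lowc (hEXX : EXX_S.{u, v}) (hSMK : SMK_S.{u, v}) (hPFG : PFG_S.{u, v}) :
    LOWC_S.{u, v} := by
  intro V Val _ _ _ a M X q L0 r0 T x y hN hSB hpos
  obtain ⟨hpr, hx1, hx2⟩ := hEXX V Val a M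
  have hX1 : (1 : ℝ) ≤ X := le_trans (by norm_num) hN.X1
  have hX0 : (0 : ℝ) < X := lt_of_lt_of_le one_pos hX1
  have hb0 : 0 < M.b := lt_of_lt_of_le one_pos M.hb
  have hn0 : 0 < (Fintype.card V : ℝ) := lt_of_lt_of_le one_pos hN.n1
  have hq0 : 0 < q := lt_of_lt_of_le (by positivity) hN.q0
  have hcut : 0 < X ^ 5 * q := by positivity
  have hb8 : q / M.b ^ (1 / 8 : ℝ) ≤ X * q := by
    have h1 : (1 : ℝ) ≤ M.b ^ (1 / 8 : ℝ) := Real.one_le_rpow M.hb (by norm_num)
    have h2 : q / M.b ^ (1 / 8 : ℝ) ≤ q / 1 := div_le_div_of_nonneg_left hq0.le one_pos h1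
    rw [div_one] at h2
    have h3 : 1 * q ≤ X * q := mul_le_mul_of_nonneg_right hX1 hq0.le
    linarith
  have hL0 : ∀ r, (r0 + 2) * (L0 + 1) ≤ r → L0 ≤ r := by
    intro r hr
    nlinarith [Nat.zero_le (r0 * L0), Nat.zero_le r0, Nat.zero_le L0]
  have hfin : (2 * (X * q)) / (X ^ 5 * q) = 2 / X ^ 4 := by
    field_simp
  have hc0 : ∀ z, 0 ≤ M.pw 0 x z y := fun z => pw_nonneg M 0 x y z
  constructor
  · -- the half walks from `x`
    have hin : ∀ (z : List (V × Val)) (v : V),
        sumL M.jc (fun l => M.pw 0 x l v * M.pf (z.take M.jc) l) ≤ 2 * (X * q) := by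
      intro z v
      have h1 := hSMK V Val a M _ X q L0 r0 T hN hSB hpos 0 M.jc x v (z.take M.jc)
        (by have := M.hjc; omega) hSB.s3 M.hsp0 (by rw [zero_add]; exact M.hspc)
      have h2 := hSB.s2 0 M.jc x v (by have := M.hjc; omega) (hL0 _ hSB.s3)
      have h3 : sumL M.jc (fun l => M.pw 0 x l v * M.pf (z.take M.jc) l) ≤
          sumL M.jc (fun l => M.pw 0 x l v * M.pg (z.take M.jc) l) :=
        sumL_mono _ fun l _ => mul_le_mul_of_nonneg_left (hPFG V Val a M _ _).2.1
          (pw_nonneg M _ _ _ _)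
      linarith
    rw [Ex_sumL, ← hfin]
    have e1 : ∀ z : List (V × Val), z.length = a →
        Ex M.law (fun ω => M.pw 0 x z y * M.xw ω 0 z *
          ind (∃ s, z[M.jc]? = some s ∧ X ^ 5 * q < M.ZX ω x s.1)) ≤
          M.pw 0 x z y * ((2 * (X * q)) / (X ^ 5 * q)) := by
      intro z hz
      have hjz : M.jc < z.length := by rw [hz]; exact M.hjc
      have hget : z[M.jc]? = some z[M.jc] := List.getElem?_eq_getElem hjz
      set s := z[M.jc] with hs
      by_cases h0 : M.pw 0 x z y = 0
      · rw [h0]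
        unfold Ex
        simp
      have hPz := pw_ne M hpos h0
      have e2 : ∀ ω, M.pw 0 x z y * M.xw ω 0 z *
          ind (∃ s, z[M.jc]? = some s ∧ X ^ 5 * q < M.ZX ω x s.1) ≤
          (M.pw 0 x z y / (X ^ 5 * q)) *
            sumL M.jc (fun l => M.pw 0 x l s.1 * (M.xw ω 0 z * M.xw ω 0 l)) := by
        intro ω
        have i1 : ind (∃ s, z[M.jc]? = some s ∧ X ^ 5 * q < M.ZX ω x s.1) ≤
            ind (X ^ 5 * q < M.ZX ω x s.1) := by
          apply ind_mono
          rintro ⟨s', h1, h2⟩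
          rw [hget] at h1
          cases h1
          exact h2
        have i2 : 0 ≤ M.ZX ω x s.1 :=
          sumL_nonneg _ fun l _ => mul_nonneg (pw_nonneg M _ _ _ _) (xw_nonneg M ω _ _)
        have i3 := i1.trans (ind_lt_le hcut i2)
        have i4 : 0 ≤ M.pw 0 x z y * M.xw ω 0 z := mul_nonneg (hc0 z) (xw_nonneg M ω _ _)
        refine (mul_le_mul_of_nonneg_left i3 i4).trans (le_of_eq ?_)
        have i5 : M.xw ω 0 z * M.ZX ω x s.1 =
            sumL M.jc (fun l => M.pw 0 x l s.1 * (M.xw ω 0 z * M.xw ω 0 l)) := by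
          unfold LM.ZX
          rw [← sumL_mul]
          exact sumL_congr _ fun l _ => by ring
        rw [← i5]
        ring
      refine (Ex_mono hpr.nn e2).trans ?_
      rw [Ex_mul_left, Ex_sumL]
      have e3 : sumL M.jc (fun l => Ex M.law (fun ω => M.pw 0 x l s.1 *
          (M.xw ω 0 z * M.xw ω 0 l))) ≤ 2 * (X * q) := by
        refine le_trans (sumL_congr _ fun l hl => ?_).le (hin z s.1)
        rw [Ex_mul_left]
        by_cases h0' : M.pw 0 x l s.1 = 0
        · rw [h0']; ring
        have htk : (z.take M.jc).length = M.jc := by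
          rw [List.length_take]; omega
        have h1 := hx2 [] (z.take M.jc) (z.drop M.jc) l
          (by rw [List.length_nil, htk, List.length_drop, hz]; have := M.hjc; omega)
          (by rw [htk, hl])
          (by rw [List.nil_append, List.take_append_drop]; exact hPz) (pw_ne M hpos h0')
        rw [List.nil_append, List.take_append_drop, List.length_nil] at h1
        rw [h1]
      have e4 : 0 ≤ M.pw 0 x z y / (X ^ 5 * q) := div_nonneg (hc0 z) hcut.le
      refine (mul_le_mul_of_nonneg_left e3 e4).trans (le_of_eq ?_)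
      ring
    refine (sumL_mono _ e1).trans ?_
    rw [sumL_mul_right, mul_comm]
    exact le_refl _
  · -- the half walks to `y`
    have hin : ∀ (z : List (V × Val)) (v : V),
        sumL (a - M.jc - 1) (fun l => M.pw (M.jc + 1) v l y * M.pf (z.drop (M.jc + 1)) l) ≤
          2 * (X * q) := by
      intro z v
      have hj := M.hjc
      have h1 := hSMK V Val a M _ X q L0 r0 T hN hSB hpos (M.jc + 1) (a - M.jc - 1) v y
        (z.drop (M.jc + 1)) (by omega) hSB.s4 M.hspc'
        (by rw [show M.jc + 1 + (a - M.jc - 1) = a by omega]; exact M.hspa)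
      have h2 := hSB.s2 (M.jc + 1) (a - M.jc - 1) v y (by omega) (hL0 _ hSB.s4)
      have h3 : sumL (a - M.jc - 1) (fun l => M.pw (M.jc + 1) v l y *
          M.pf (z.drop (M.jc + 1)) l) ≤
          sumL (a - M.jc - 1) (fun l => M.pw (M.jc + 1) v l y * M.pg (z.drop (M.jc + 1)) l) :=
        sumL_mono _ fun l _ => mul_le_mul_of_nonneg_left (hPFG V Val a M _ _).2.1
          (pw_nonneg M _ _ _ _)
      linarith
    rw [Ex_sumL, ← hfin]
    have e1 : ∀ z : List (V × Val), z.length = a →
        Ex M.law (fun ω => M.pw 0 x z y * M.xw ω 0 z *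
          ind (∃ s, z[M.jc]? = some s ∧ X ^ 5 * q < M.ZY ω (M.ex s.1 s.2) y)) ≤
          M.pw 0 x z y * ((2 * (X * q)) / (X ^ 5 * q)) := by
      intro z hz
      have hj := M.hjc
      have hjz : M.jc < z.length := by rw [hz]; exact M.hjc
      have hget : z[M.jc]? = some z[M.jc] := List.getElem?_eq_getElem hjz
      set s := z[M.jc] with hs
      by_cases h0 : M.pw 0 x z y = 0
      · rw [h0]
        unfold Ex
        simp
      have hPz := pw_ne M hpos h0
      have e2 : ∀ ω, M.pw 0 x z y * M.xw ω 0 z *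
          ind (∃ s, z[M.jc]? = some s ∧ X ^ 5 * q < M.ZY ω (M.ex s.1 s.2) y) ≤
          (M.pw 0 x z y / (X ^ 5 * q)) *
            sumL (a - M.jc - 1) (fun l => M.pw (M.jc + 1) (M.ex s.1 s.2) l y *
              (M.xw ω 0 z * M.xw ω (M.jc + 1) l)) := by
        intro ω
        have i1 : ind (∃ s, z[M.jc]? = some s ∧ X ^ 5 * q < M.ZY ω (M.ex s.1 s.2) y) ≤
            ind (X ^ 5 * q < M.ZY ω (M.ex s.1 s.2) y) := by
          apply ind_mono
          rintro ⟨s', h1, h2⟩
          rw [hget] at h1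
          cases h1
          exact h2
        have i2 : 0 ≤ M.ZY ω (M.ex s.1 s.2) y :=
          sumL_nonneg _ fun l _ => mul_nonneg (pw_nonneg M _ _ _ _) (xw_nonneg M ω _ _)
        have i3 := i1.trans (ind_lt_le hcut i2)
        have i4 : 0 ≤ M.pw 0 x z y * M.xw ω 0 z := mul_nonneg (hc0 z) (xw_nonneg M ω _ _)
        refine (mul_le_mul_of_nonneg_left i3 i4).trans (le_of_eq ?_)
        have i5 : M.xw ω 0 z * M.ZY ω (M.ex s.1 s.2) y =
            sumL (a - M.jc - 1) (fun l => M.pw (M.jc + 1) (M.ex s.1 s.2) l y *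
              (M.xw ω 0 z * M.xw ω (M.jc + 1) l)) := by
          unfold LM.ZY
          rw [← sumL_mul]
          exact sumL_congr _ fun l _ => by ring
        rw [← i5]
        ring
      refine (Ex_mono hpr.nn e2).trans ?_
      rw [Ex_mul_left, Ex_sumL]
      have e3 : sumL (a - M.jc - 1) (fun l => Ex M.law (fun ω =>
          M.pw (M.jc + 1) (M.ex s.1 s.2) l y * (M.xw ω 0 z * M.xw ω (M.jc + 1) l))) ≤
            2 * (X * q) := by
        refine le_trans (sumL_congr _ fun l hl => ?_).le (hin z (M.ex s.1 s.2))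
        rw [Ex_mul_left]
        by_cases h0' : M.pw (M.jc + 1) (M.ex s.1 s.2) l y = 0
        · rw [h0']; ring
        have htk : (z.take (M.jc + 1)).length = M.jc + 1 := by
          rw [List.length_take]; omega
        have h1 := hx2 (z.take (M.jc + 1)) (z.drop (M.jc + 1)) [] l
          (by rw [List.length_nil, htk, List.length_drop, hz]; omega)
          (by rw [List.length_drop, hz, hl]; omega)
          (by rw [List.append_nil, List.take_append_drop]; exact hPz) (pw_ne M hpos h0')
        rw [List.append_nil, List.take_append_drop, htk] at h1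
        rw [h1]
      have e4 : 0 ≤ M.pw 0 x z y / (X ^ 5 * q) := div_nonneg (hc0 z) hcut.le
      refine (mul_le_mul_of_nonneg_left e3 e4).trans (le_of_eq ?_)
      ring
    refine (sumL_mono _ e1).trans ?_
    rw [sumL_mul_right, mul_comm]
    exact le_refl _

end Pool.Agent.Lib.MP_688fd0_co.TE.H69
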