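import Pool.Agent.Lib.MP_688fd0_co.TE.H69.Mass

/-!
# Theorem E: LOWD
-/

namespace Pool.Agent.Lib.MP_688fd0_co.TE.H69

universe u v

section

variable {V : Type u} {Val : Type v} [Fintype V] [Fintype Val] [DecidableEq V] {a : ℕ}

omit [DecidableEq V] in
theorem optW_isPr (M : LM V Val a) (u : V) : IsPr (optW (M.P u)) := by
  constructor
  · exact optW_nonneg M u
  · rw [Fintype.sum_option]
    simp [optW]

theorem Pr_eq_Ex {Ω : Type*} [Fintype Ω] (μ : Ω → ℝ) (E : Ω → Prop) :
    Pr μ E = Ex μ (fun ω => ind (E ω)) := rfl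

/-- The product law of all fields of all colours, flattened. -/
theorem Pr_flat (hC1 : CURRY_S.{0, 0, max u v}) (hC2 : CURRY_S.{0, u, v}) (M : LM V Val a) (T : ℕ)
    (E : (Fin T → Fld a V Val) → Prop) :
    Pr (piW (fun _ : Fin T => M.law)) E =
      Pr (piW (fun p : (Fin T × Fin a) × V => optW (M.P p.2)))
        (fun ω => E (fun t j u => ω ((t, j), u))) := by
  rw [Pr_eq_Ex, Pr_eq_Ex]
  have h1 := hC1 (Fin T) (Fin a) (V → Option Val)
    (fun _ _ => piW (fun u : V => optW (M.P u))) (fun ω => ind (E ω))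
  have h2 := hC2 (Fin T × Fin a) V (Option Val) (fun _ u => optW (M.P u))
    (fun ω => ind (E (fun t j => ω (t, j))))
  rw [← h2] at h1
  exact h1.symm

omit [DecidableEq V] in
theorem sum_ind_some (o : Option Val) (f : Val → ℝ) :
    ∑ e, ind (o = some e) * f e = match o with
      | none => 0
      | some e => f e := by
  classical
  cases o with
  | none =>
    apply Finset.sum_eq_zero
    intro e _
    rw [ind_not (by simp), zero_mul]
  | some e0 =>
    rw [Finset.sum_eq_single e0]
    · rw [ind_of rfl, one_mul]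
    · intro b _ hb
      rw [ind_not (by simpa using fun h => hb h.symm), zero_mul]
    · intro h
      exact absurd (Finset.mem_univ _) h

omit [DecidableEq V] in
theorem mean_bound (M : LM V Val a) {h : V → ℝ} (h0 : ∀ v, 0 ≤ h v) :
    ∑ u, ∑ e, M.P u e * (h u + h (M.ex u e)) ≤ 2 * M.pt * ∑ v, h v := by
  have e1 : ∀ u e, M.P u e * (h u + h (M.ex u e)) ≤
      ∑ w, h w * (2 * (M.P u e * ind (u = w ∨ M.ex u e = w))) := by
    intro u e
    have e2 : h u = ∑ w, h w * ind (u = w) := by
      rw [Finset.sum_eq_single u]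
      · rw [ind_of rfl, mul_one]
      · intro b _ hb
        rw [ind_not (fun hh => hb hh.symm), mul_zero]
      · intro hh; exact absurd (Finset.mem_univ _) hh
    have e3 : h (M.ex u e) = ∑ w, h w * ind (M.ex u e = w) := by
      rw [Finset.sum_eq_single (M.ex u e)]
      · rw [ind_of rfl, mul_one]
      · intro b _ hb
        rw [ind_not (fun hh => hb hh.symm), mul_zero]
      · intro hh; exact absurd (Finset.mem_univ _) hh
    rw [e2, e3, ← Finset.sum_add_distrib, Finset.mul_sum]
    refine Finset.sum_le_sum fun w _ => ?_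
    have i1 : ind (u = w) ≤ ind (u = w ∨ M.ex u e = w) := ind_mono Or.inl
    have i2 : ind (M.ex u e = w) ≤ ind (u = w ∨ M.ex u e = w) := ind_mono Or.inr
    have i3 : 0 ≤ M.P u e * h w := mul_nonneg (M.hP0 u e) (h0 w)
    have i4 := mul_le_mul_of_nonneg_left (add_le_add i1 i2) i3
    linarith
  calc ∑ u, ∑ e, M.P u e * (h u + h (M.ex u e))
      ≤ ∑ u, ∑ e, ∑ w, h w * (2 * (M.P u e * ind (u = w ∨ M.ex u e = w))) :=
        Finset.sum_le_sum fun u _ => Finset.sum_le_sum fun e _ => e1 u e
    _ = ∑ w, h w * (2 * ∑ u, ∑ e, M.P u e * ind (u = w ∨ M.ex u e = w)) := by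
        have s1 : ∀ u, ∑ e, ∑ w, h w * (2 * (M.P u e * ind (u = w ∨ M.ex u e = w))) =
            ∑ w, ∑ e, h w * (2 * (M.P u e * ind (u = w ∨ M.ex u e = w))) := fun u =>
          Finset.sum_comm
        simp_rw [s1]
        rw [Finset.sum_comm]
        simp_rw [Finset.mul_sum]
    _ ≤ ∑ w, h w * (2 * M.pt) := by
        refine Finset.sum_le_sum fun w _ => mul_le_mul_of_nonneg_left ?_ (h0 w)
        linarith [M.hpt w]
    _ = _ := by rw [← Finset.sum_mul]; ring

end

/-- LOWD. -/
theorem lowd (hC1 : CURRY_S.{0, 0, max u v}) (hC2 : CURRY_S.{0, u, v}) (hCH : CHERN_S.{u, v}) :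
    LOWD_S.{u, v} := by
  intro V Val _ _ _ a M T h S h1 m h0 hh1 hh1p hm hS hmm
  rw [Pr_flat hC1 hC2]
  have hpt0 : 0 ≤ M.pt ∨ IsEmpty V := by
    by_cases hV : Nonempty V
    · left
      obtain ⟨w⟩ := hV
      refine le_trans ?_ (M.hpt w)
      exact Finset.sum_nonneg fun u _ => Finset.sum_nonneg fun e _ =>
        mul_nonneg (M.hP0 _ _) (ind_nonneg _)
    · right
      exact not_nonempty_iff.1 hV
  have key := hCH ((Fin T × Fin a) × V) (fun _ => Option Val) (fun p => optW (M.P p.2))
    (fun p => optW_isPr M p.2)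
    (fun p o => ∑ e, ind (o = some e) * (h p.2 + h (M.ex p.2 e))) (2 * h1) m m
    (by linarith) hm ?_ ?_ ?_ (by linarith)
  · refine le_trans (le_of_eq ?_) (key.trans (le_of_eq ?_))
    · congr 1
      funext ω
      have e0 : m + m = 2 * m := by ring
      rw [Fintype.sum_prod_type, Fintype.sum_prod_type, e0]
      rfl
    · congr 2
      field_simp
      ring
  · intro p o
    exact Finset.sum_nonneg fun e _ => mul_nonneg (ind_nonneg _) (add_nonneg (h0 _) (h0 _))
  · intro p o
    rw [sum_ind_some]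
    cases o with
    | none =>
      show (0 : ℝ) ≤ 2 * h1
      linarith
    | some e =>
      show h p.2 + h (M.ex p.2 e) ≤ 2 * h1
      linarith [hh1 p.2, hh1 (M.ex p.2 e)]
  · have e1 : ∀ p : (Fin T × Fin a) × V, Ex (optW (M.P p.2))
        (fun o => ∑ e, ind (o = some e) * (h p.2 + h (M.ex p.2 e))) =
          ∑ e, M.P p.2 e * (h p.2 + h (M.ex p.2 e)) := by
      intro p
      unfold Ex
      simp_rw [sum_ind_some]
      rw [Fintype.sum_option]
      simp [optW]
    simp_rw [e1]
    rw [Fintype.sum_prod_type]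
    simp only [Finset.sum_const, Finset.card_univ, Fintype.card_prod, Fintype.card_fin,
      nsmul_eq_mul]
    have h2 := mean_bound M h0
    have hTa : (0 : ℝ) ≤ ((T * a : ℕ) : ℝ) := Nat.cast_nonneg _
    have hS0 : 0 ≤ ∑ v, h v := Finset.sum_nonneg fun v _ => h0 v
    refine (mul_le_mul_of_nonneg_left h2 hTa).trans ?_
    rcases hpt0 with hpt | hV
    · refine le_trans ?_ hmm
      push_cast
      have h3 : 2 * M.pt * ∑ v, h v ≤ 2 * M.pt * S :=
        mul_le_mul_of_nonneg_left hS (by linarith)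
      have h4 := mul_le_mul_of_nonneg_left h3 hTa
      push_cast at h4
      linarith
    · have : ∑ v, h v = 0 := by
        rw [Finset.univ_eq_empty]; exact Finset.sum_empty
      rw [this, mul_zero, mul_zero]
      exact hm.le

end Pool.Agent.Lib.MP_688fd0_co.TE.H69
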