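import Pool.Agent.Lib.MP_688fd0_co.TE.Iface3

/-!
# Theorem E: MASS (3.5)
-/

namespace Pool.Agent.Lib.MP_688fd0_co.TE.H69

universe u v

section

variable {V : Type u} {Val : Type v} [Fintype V] [Fintype Val] [DecidableEq V] {a : ℕ}

omit [DecidableEq V] in
theorem optW_nonneg (M : LM V Val a) (u : V) (o : Option Val) : 0 ≤ optW (M.P u) o := by
  cases o with
  | none =>
    have := M.hP1 u
    show 0 ≤ 1 - ∑ e, M.P u e
    linarith
  | some e => exact M.hP0 u e

omit [DecidableEq V] in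
theorem law_nonneg (M : LM V Val a) (ω : Fld a V Val) : 0 ≤ M.law ω := by
  unfold LM.law piW
  exact Finset.prod_nonneg fun i _ => Finset.prod_nonneg fun u _ => optW_nonneg M u _

omit [DecidableEq V] in
theorem lw_nonneg (M : LM V Val a) (ω : Fld a V Val) (j : ℕ) (u : V) (e : Val) : 0 ≤ M.lw ω j u e := by
  unfold LM.lw
  exact mul_nonneg (M.hk0 _ _ _) (div_nonneg (ind_nonneg _) (M.hP0 _ _))

theorem Top_le (M : LM V Val a) (ω : Fld a V Val) (j : ℕ) {F : V → ℝ} {c : ℝ} {H : V → ℝ}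
    (hF : ∀ v, F v ≤ c * H v) (v : V) : M.Top ω j F v ≤ c * M.Top ω j H v := by
  unfold LM.Top
  rw [Finset.mul_sum]
  refine Finset.sum_le_sum fun u _ => ?_
  rw [Finset.mul_sum]
  refine Finset.sum_le_sum fun e _ => ?_
  have h1 : 0 ≤ M.lw ω j u e * M.C (j + 1) (M.ex u e) v :=
    mul_nonneg (lw_nonneg M ω j u e) (M.hC0 _ _ _)
  calc F u * M.lw ω j u e * M.C (j + 1) (M.ex u e) v
      = F u * (M.lw ω j u e * M.C (j + 1) (M.ex u e) v) := by ring
    _ ≤ (c * H u) * (M.lw ω j u e * M.C (j + 1) (M.ex u e) v) :=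
      mul_le_mul_of_nonneg_right (hF u) h1
    _ = _ := by ring

theorem Gop_le (M : LM V Val a) (ω : Fld a V Val) (j : ℕ) {F : V → ℝ} {c : ℝ} {H : V → ℝ}
    (hF : ∀ v, F v ≤ c * H v) (v : V) : M.Gop ω j F v ≤ c * M.Gop ω j H v := by
  unfold LM.Gop
  rw [Finset.mul_sum]
  refine Finset.sum_le_sum fun u _ => ?_
  rw [Finset.mul_sum]
  refine Finset.sum_le_sum fun e _ => ?_
  have h1 : 0 ≤ M.C j v u * M.lw ω j u e := mul_nonneg (M.hC0 _ _ _) (lw_nonneg M ω j u e)
  calc M.C j v u * M.lw ω j u e * F (M.ex u e)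
      ≤ M.C j v u * M.lw ω j u e * (c * H (M.ex u e)) := mul_le_mul_of_nonneg_left (hF _) h1
    _ = _ := by ring

/-- The deterministic part of MASS. -/
theorem mass_det (M : LM V Val a) (ω : Fld a V Val) {D K : ℝ} (hD : 0 ≤ D)
    (hDa : (1 + 2 * D) ^ a ≤ 2) (hK : 1 ≤ K)
    (hA : ∀ j v, j < a →
      (M.sp (j + 1) → M.Top ω j (fun _ => 1) v ≤ 1 + D) ∧
      M.Top ω j (fun _ => 1) v ≤ K ∧
      (M.sp j → M.Gop ω j (fun _ => 1) v ≤ 1 + D) ∧
      M.Gop ω j (fun _ => 1) v ≤ K)
    (hB : ∀ j v, j + 1 < a →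
      (M.sp (j + 2) → M.Top ω (j + 1) (M.Top ω j (fun _ => 1)) v ≤ 1 + 2 * D) ∧
      (M.sp j → M.Gop ω j (M.Gop ω (j + 1) (fun _ => 1)) v ≤ 1 + 2 * D)) :
    (∀ i n v, i + n ≤ a → (n = 0 ∨ M.sp (i + n)) → M.Fn ω i (fun _ => 1) n v ≤ 2) ∧
    (∀ i n v, i + n ≤ a → M.Fn ω i (fun _ => 1) n v ≤ 2 * K) ∧
    (∀ i n v, i + n ≤ a → (n = 0 ∨ M.sp i) → M.Gn ω (fun _ => 1) n i v ≤ 2) ∧
    (∀ i n v, i + n ≤ a → M.Gn ω (fun _ => 1) n i v ≤ 2 * K) := by
  have hE1 : (1 : ℝ) ≤ 1 + 2 * D := by linarith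
  have hE0 : (0 : ℝ) ≤ 1 + 2 * D := by linarith
  have hpow : ∀ n, 0 ≤ (1 + 2 * D) ^ n := fun n => pow_nonneg hE0 n
  have hstep1 : ∀ (n : ℕ) (t : ℝ), t ≤ 1 + D → (1 + 2 * D) ^ n * t ≤ (1 + 2 * D) ^ (n + 1) := by
    intro n t ht
    rw [pow_succ]
    exact mul_le_mul_of_nonneg_left (by linarith) (hpow n)
  have hstep2 : ∀ (n : ℕ) (t : ℝ), t ≤ 1 + 2 * D →
      (1 + 2 * D) ^ n * t ≤ (1 + 2 * D) ^ (n + 2) := by
    intro n t ht
    calc (1 + 2 * D) ^ n * t ≤ (1 + 2 * D) ^ n * (1 + 2 * D) :=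
          mul_le_mul_of_nonneg_left ht (hpow n)
      _ = (1 + 2 * D) ^ (n + 1) := by rw [pow_succ]
      _ ≤ (1 + 2 * D) ^ (n + 2) := pow_le_pow_right₀ hE1 (by omega)
  have hle2 : ∀ n, n ≤ a → (1 + 2 * D) ^ n ≤ 2 := fun n hn =>
    (pow_le_pow_right₀ hE1 hn).trans hDa
  have hF : ∀ n i, i + n ≤ a → (n = 0 ∨ M.sp (i + n)) →
      ∀ v, M.Fn ω i (fun _ => 1) n v ≤ (1 + 2 * D) ^ n := by
    intro n
    induction n using Nat.strong_induction_on with
    | _ n ih =>
      intro i hin hsp v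
      match n, ih, hin, hsp with
      | 0, _, _, _ => simp [LM.Fn]
      | 1, _, hin, hsp =>
        have hs : M.sp (i + 1) := by
          rcases hsp with h | h
          · omega
          · exact h
        have := (hA i v (by omega)).1 hs
        show M.Top ω (i + 0) (fun _ => 1) v ≤ _
        rw [add_zero, pow_one]
        linarith
      | n + 2, ih, hin, hsp =>
        have hs : M.sp (i + n + 2) := by
          rcases hsp with h | h
          · omega
          · have e : i + (n + 2) = i + n + 2 := by omega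
            rwa [e] at h
        by_cases hs1 : M.sp (i + n + 1)
        · have h1 := ih (n + 1) (by omega) i (by omega) (Or.inr hs1)
          show M.Top ω (i + (n + 1)) (M.Fn ω i (fun _ => 1) (n + 1)) v ≤ _
          have h2 := Top_le M ω (i + (n + 1)) (H := fun _ => 1) (c := (1 + 2 * D) ^ (n + 1))
            (fun v => by simpa using h1 v) v
          refine h2.trans (hstep1 (n + 1) _ ?_)
          exact (hA (i + (n + 1)) v (by omega)).1 hs
        · have hs0 : M.sp (i + n) := by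
            rcases M.hsp2 (i + n) (by omega) with h | h
            · exact h
            · exact absurd h hs1
          have h1 := ih n (by omega) i (by omega) (Or.inr hs0)
          show M.Top ω (i + (n + 1)) (M.Top ω (i + n) (M.Fn ω i (fun _ => 1) n)) v ≤ _
          have h2 := Top_le M ω (i + n) (H := fun _ => 1) (c := (1 + 2 * D) ^ n)
            (fun v => by simpa using h1 v)
          have h3 := Top_le M ω (i + (n + 1)) (H := M.Top ω (i + n) (fun _ => 1))
            (c := (1 + 2 * D) ^ n) h2 v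
          refine h3.trans (hstep2 n _ ?_)
          exact (hB (i + n) v (by omega)).1 hs
  have hG : ∀ n i, i + n ≤ a → (n = 0 ∨ M.sp i) →
      ∀ v, M.Gn ω (fun _ => 1) n i v ≤ (1 + 2 * D) ^ n := by
    intro n
    induction n using Nat.strong_induction_on with
    | _ n ih =>
      intro i hin hsp v
      match n, ih, hin, hsp with
      | 0, _, _, _ => simp [LM.Gn]
      | 1, _, hin, hsp =>
        have hs : M.sp i := by
          rcases hsp with h | h
          · omega
          · exact h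
        have := (hA i v (by omega)).2.2.1 hs
        show M.Gop ω i (fun _ => 1) v ≤ _
        rw [pow_one]
        linarith
      | n + 2, ih, hin, hsp =>
        have hs : M.sp i := by
          rcases hsp with h | h
          · omega
          · exact h
        by_cases hs1 : M.sp (i + 1)
        · have h1 := ih (n + 1) (by omega) (i + 1) (by omega) (Or.inr hs1)
          show M.Gop ω i (M.Gn ω (fun _ => 1) (n + 1) (i + 1)) v ≤ _
          have h2 := Gop_le M ω i (H := fun _ => 1) (c := (1 + 2 * D) ^ (n + 1))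
            (fun v => by simpa using h1 v) v
          refine h2.trans (hstep1 (n + 1) _ ?_)
          exact (hA i v (by omega)).2.2.1 hs
        · have hs0 : M.sp (i + 2) := by
            rcases M.hsp2 (i + 1) (by omega) with h | h
            · exact absurd h hs1
            · exact h
          have h1 := ih n (by omega) (i + 2) (by omega) (Or.inr hs0)
          show M.Gop ω i (M.Gop ω (i + 1) (M.Gn ω (fun _ => 1) n (i + 2))) v ≤ _
          have h2 := Gop_le M ω (i + 1) (H := fun _ => 1) (c := (1 + 2 * D) ^ n)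
            (fun v => by simpa using h1 v)
          have h3 := Gop_le M ω i (H := M.Gop ω (i + 1) (fun _ => 1))
            (c := (1 + 2 * D) ^ n) h2 v
          refine h3.trans (hstep2 n _ ?_)
          exact (hB i v (by omega)).2 hs
  refine ⟨fun i n v hin hsp => (hF n i hin hsp v).trans (hle2 n (by omega)), ?_,
    fun i n v hin hsp => (hG n i hin hsp v).trans (hle2 n (by omega)), ?_⟩
  · intro i n v hin
    match n, hin with
    | 0, _ =>
      show (1 : ℝ) ≤ 2 * K
      linarith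
    | n + 1, hin =>
      have h0 : n = 0 ∨ M.sp (i + n) ∨ M.sp (i + n + 1) := Or.inr (M.hsp2 (i + n) (by omega))
      have key : (n = 0 ∨ M.sp (i + n)) → M.Fn ω i (fun _ => 1) (n + 1) v ≤ 2 * K := by
        intro h
        have h1 := hF n i (by omega) h
        have h2 := Top_le M ω (i + n) (H := fun _ => 1) (c := 2)
          (fun v => by simpa using (h1 v).trans (hle2 n (by omega))) v
        refine h2.trans ?_
        have := (hA (i + n) v (by omega)).2.1
        linarith
      rcases h0 with h | h | h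
      · exact key (Or.inl h)
      · exact key (Or.inr h)
      · have := hF (n + 1) i hin (Or.inr h) v
        have h2 := hle2 (n + 1) (by omega)
        linarith
  · intro i n v hin
    match n, hin with
    | 0, _ =>
      show (1 : ℝ) ≤ 2 * K
      linarith
    | n + 1, hin =>
      have key : (n = 0 ∨ M.sp (i + 1)) → M.Gn ω (fun _ => 1) (n + 1) i v ≤ 2 * K := by
        intro h
        have h1 := hG n (i + 1) (by omega) h
        have h2 := Gop_le M ω i (H := fun _ => 1) (c := 2)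
          (fun v => by simpa using (h1 v).trans (hle2 n (by omega))) v
        refine h2.trans ?_
        have := (hA i v (by omega)).2.2.2
        linarith
      rcases M.hsp2 i (by omega) with h | h
      · have := hG (n + 1) i hin (Or.inr h) v
        have h2 := hle2 (n + 1) (by omega)
        linarith
      · exact key (Or.inr h)

theorem pow_le_two {a : ℕ} {D : ℝ} (hD : 0 ≤ D) (h : 4 * (a : ℝ) * D ≤ 1) :
    (1 + 2 * D) ^ a ≤ 2 := by
  have h1 : (1 + 2 * D) ^ a ≤ Real.exp (2 * D) ^ a :=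
    pow_le_pow_left₀ (by linarith) (by linarith [Real.add_one_le_exp (2 * D)]) a
  refine h1.trans ?_
  rw [← Real.exp_nat_mul]
  have h2 : (a : ℝ) * (2 * D) ≤ 1 / 2 := by linarith
  refine (Real.exp_le_exp.2 h2).trans ?_
  have h3 : Real.exp (1 / 2) ^ 2 ≤ 4 := by
    rw [← Real.exp_nat_mul]
    have : ((2 : ℕ) : ℝ) * (1 / 2) = 1 := by norm_num
    rw [this]
    linarith [Real.exp_one_lt_d9]
  by_contra hlt
  push Not at hlt
  nlinarith [Real.exp_pos (1 / 2)]

end

/-- MASS. -/
theorem mass (hMASSA : MASSA_S.{u, v}) : MASS_S.{u, v} := by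
  intro V Val _ _ _ a M X q r0 T hN
  refine le_trans ?_ (hMASSA V Val a M X q r0 T hN)
  unfold Pr
  refine Finset.sum_le_sum fun ω _ => mul_le_mul_of_nonneg_left (ind_mono ?_) (law_nonneg M ω)
  intro hbad hgood
  apply hbad
  have hX1 : (1 : ℝ) ≤ X := le_trans (by norm_num) hN.X1
  have hX0 : (0 : ℝ) ≤ X := le_trans zero_le_one hX1
  have hb1 := M.hb
  have hb0 : 0 < M.b := lt_of_lt_of_le one_pos hb1
  have hK : 1 ≤ M.H0 * X := by
    have h1 : 1 * 1 ≤ M.H0 * X := mul_le_mul M.hH0 hX1 zero_le_one (le_trans zero_le_one M.hH0)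
    linarith
  have hb4 : X ≤ M.b ^ (1 / 4 : ℝ) := by
    have h1 : X ^ (4 : ℕ) ≤ M.b := by
      refine le_trans ?_ hN.bX
      exact pow_le_pow_right₀ hX1 (by norm_num)
    have h2 := Real.rpow_le_rpow (pow_nonneg hX0 4) h1 (show (0 : ℝ) ≤ 1 / 4 by norm_num)
    rw [← Real.rpow_natCast X 4, ← Real.rpow_mul hX0] at h2
    norm_num at h2
    norm_num
    exact h2
  have hbp : 0 < M.b ^ (1 / 4 : ℝ) := Real.rpow_pos_of_pos hb0 _
  have haX : 4 * (a : ℝ) ≤ X := by
    have h1 := hN.aX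
    have h2 : (0 : ℝ) ≤ a := Nat.cast_nonneg _
    have h3 : (1 : ℝ) ≤ 10 ^ 6 * (a + 1) := by linarith
    have h4 : (10 ^ 6 * (a + 1) : ℝ) ≤ (10 ^ 6 * (a + 1) : ℝ) ^ 20 :=
      le_self_pow₀ h3 (by norm_num)
    linarith
  have hD : (0 : ℝ) ≤ 1 / M.b ^ (1 / 4 : ℝ) := by positivity
  have hDa : (1 + 2 * (1 / M.b ^ (1 / 4 : ℝ))) ^ a ≤ 2 := by
    apply pow_le_two hD
    rw [mul_one_div, div_le_one hbp]
    exact haX.trans hb4
  have hg2 : ∀ j v, j + 1 < a →
      (M.sp (j + 2) → M.Top ω (j + 1) (M.Top ω j (fun _ => 1)) v ≤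
        1 + 2 * (1 / M.b ^ (1 / 4 : ℝ))) ∧
      (M.sp j → M.Gop ω j (M.Gop ω (j + 1) (fun _ => 1)) v ≤
        1 + 2 * (1 / M.b ^ (1 / 4 : ℝ))) := by
    intro j v hj
    rw [mul_one_div]
    exact hgood.2 j v hj
  obtain ⟨m1, m2, m3, m4⟩ := mass_det M ω hD hDa hK hgood.1 hg2
  refine ⟨m1, fun i n v h => (m2 i n v h).trans ?_, m3, fun i n v h => (m4 i n v h).trans ?_⟩ <;>
  nlinarith

end Pool.Agent.Lib.MP_688fd0_co.TE.H69
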