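import Pool.Agent.Lib.MP_688fd0_co.TE.Iface3

/-!
# Theorem E: small lemmas on `sumL`, `Ex`, `pw`
-/

namespace Pool.Agent.Lib.MP_688fd0_co.TE.H69

universe u v w

section

variable {S : Type u} [Fintype S]

theorem sumL_mono (n : ℕ) {F H : List S → ℝ} (h : ∀ l, l.length = n → F l ≤ H l) :
    sumL n F ≤ sumL n H := by
  induction n generalizing F H with
  | zero => exact h [] rfl
  | succ n ih =>
    exact Finset.sum_le_sum fun s _ => ih fun l hl => h (s :: l) (by simp [hl])

theorem sumL_congr (n : ℕ) {F H : List S → ℝ} (h : ∀ l, l.length = n → F l = H l) :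
    sumL n F = sumL n H :=
  le_antisymm (sumL_mono n fun l hl => (h l hl).le) (sumL_mono n fun l hl => (h l hl).ge)

theorem sumL_mul (n : ℕ) (c : ℝ) (F : List S → ℝ) :
    sumL n (fun l => c * F l) = c * sumL n F := by
  induction n generalizing F with
  | zero => rfl
  | succ n ih =>
    show ∑ s, sumL n (fun l => c * F (s :: l)) = c * ∑ s, sumL n (fun l => F (s :: l))
    rw [Finset.mul_sum]
    exact Finset.sum_congr rfl fun s _ => ih fun l => F (s :: l)

theorem sumL_mul_right (n : ℕ) (c : ℝ) (F : List S → ℝ) :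
    sumL n (fun l => F l * c) = sumL n F * c := by
  rw [mul_comm, ← sumL_mul]
  exact sumL_congr n fun l _ => mul_comm _ _

theorem sumL_add (n : ℕ) (F H : List S → ℝ) :
    sumL n (fun l => F l + H l) = sumL n F + sumL n H := by
  induction n generalizing F H with
  | zero => rfl
  | succ n ih =>
    show ∑ s, sumL n (fun l => F (s :: l) + H (s :: l)) =
      ∑ s, sumL n (fun l => F (s :: l)) + ∑ s, sumL n (fun l => H (s :: l))
    rw [← Finset.sum_add_distrib]
    exact Finset.sum_congr rfl fun s _ => ih _ _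

theorem sumL_nonneg (n : ℕ) {F : List S → ℝ} (h : ∀ l, l.length = n → 0 ≤ F l) :
    0 ≤ sumL n F := by
  have h1 := sumL_mono (F := fun _ => 0 * 0) n (fun l hl => by simpa using h l hl)
  rw [sumL_mul, zero_mul] at h1
  exact h1

theorem Ex_sumL {Ω : Type w} [Fintype Ω] (μ : Ω → ℝ) (n : ℕ) (F : List S → Ω → ℝ) :
    Ex μ (fun ω => sumL n (fun l => F l ω)) = sumL n (fun l => Ex μ (F l)) := by
  induction n generalizing F with
  | zero => rfl
  | succ n ih =>
    show ∑ ω, μ ω * ∑ s, sumL n (fun l => F (s :: l) ω) = ∑ s, sumL n (fun l => Ex μ (F (s :: l)))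
    simp_rw [Finset.mul_sum]
    rw [Finset.sum_comm]
    exact Finset.sum_congr rfl fun s _ => ih fun l => F (s :: l)

end

section

variable {Ω : Type w} [Fintype Ω]

theorem Ex_mul_left (μ : Ω → ℝ) (c : ℝ) (f : Ω → ℝ) : Ex μ (fun ω => c * f ω) = c * Ex μ f := by
  unfold Ex
  rw [Finset.mul_sum]
  exact Finset.sum_congr rfl fun ω _ => by ring

theorem Ex_mono {μ : Ω → ℝ} (hμ : ∀ ω, 0 ≤ μ ω) {f g : Ω → ℝ} (h : ∀ ω, f ω ≤ g ω) :
    Ex μ f ≤ Ex μ g :=
  Finset.sum_le_sum fun ω _ => mul_le_mul_of_nonneg_left (h ω) (hμ ω)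

end

section

variable {V : Type u} {Val : Type v} [Fintype V] [Fintype Val] {a : ℕ}

theorem pw_nonneg (M : LM V Val a) (j : ℕ) (x y : V) (z : List (V × Val)) : 0 ≤ M.pw j x z y := by
  induction z generalizing j x with
  | nil => exact M.hC0 _ _ _
  | cons s l ih =>
    show 0 ≤ M.C j x s.1 * M.kap j s.1 s.2 * M.pw (j + 1) (M.ex s.1 s.2) l y
    exact mul_nonneg (mul_nonneg (M.hC0 _ _ _) (M.hk0 _ _ _)) (ih _ _)

theorem pw_ne (M : LM V Val a) (hpos : ∀ j u e, M.P u e = 0 → M.kap j u e = 0) {j : ℕ} {x y : V}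
    {z : List (V × Val)} (h : M.pw j x z y ≠ 0) : ∀ s ∈ z, M.P s.1 s.2 ≠ 0 := by
  induction z generalizing j x with
  | nil => intro s hs; simp at hs
  | cons s l ih =>
    have h' : M.C j x s.1 * M.kap j s.1 s.2 * M.pw (j + 1) (M.ex s.1 s.2) l y ≠ 0 := h
    intro t ht
    rcases List.mem_cons.1 ht with rfl | ht
    · intro h0
      exact (left_ne_zero_of_mul h') (by rw [hpos j _ _ h0, mul_zero])
    · exact ih (right_ne_zero_of_mul h') t ht

theorem xw_nonneg (M : LM V Val a) (ω : Fld a V Val) (j : ℕ) (z : List (V × Val)) : 0 ≤ M.xw ω j z := by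
  induction z generalizing j with
  | nil => exact zero_le_one
  | cons s l ih =>
    show 0 ≤ ind (val ω j s.1 = some s.2) / M.P s.1 s.2 * M.xw ω (j + 1) l
    exact mul_nonneg (div_nonneg (ind_nonneg _) (M.hP0 _ _)) (ih _)

end

end Pool.Agent.Lib.MP_688fd0_co.TE.H69
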